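import Pool.Agent.H286R5.ZakDefs

set_option autoImplicit false

namespace Pool.Agent.H553R3

open MvPolynomial Pool.Agent.H286R5

/-- change of variables -/
noncomputable def theta (t c : ℂ) : MvPolynomial (Fin 2) ℂ →ₐ[ℂ] MvPolynomial (Fin 2) ℂ :=
  aeval ![C t * X 0, X 1 + C c * X 0]

noncomputable def theta' (t c : ℂ) : MvPolynomial (Fin 2) ℂ →ₐ[ℂ] MvPolynomial (Fin 2) ℂ :=
  aeval ![C t⁻¹ * X 0, X 1 - C (c * t⁻¹) * X 0]

theorem theta_C (t c a : ℂ) : theta t c (C a) = C a := by
  unfold theta; rw [aeval_C]; rfl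

theorem theta'_C (t c a : ℂ) : theta' t c (C a) = C a := by
  unfold theta'; rw [aeval_C]; rfl

theorem theta_X0 (t c : ℂ) : theta t c (X 0) = C t * X 0 := by
  unfold theta; rw [aeval_X]; rfl

theorem theta_X1 (t c : ℂ) : theta t c (X 1) = X 1 + C c * X 0 := by
  unfold theta; rw [aeval_X]; rfl

theorem theta'_X0 (t c : ℂ) : theta' t c (X 0) = C t⁻¹ * X 0 := by
  unfold theta'; rw [aeval_X]; rfl

theorem theta'_X1 (t c : ℂ) : theta' t c (X 1) = X 1 - C (c * t⁻¹) * X 0 := by
  unfold theta'; rw [aeval_X]; rfl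

theorem left_inv (t c : ℂ) (ht : t ≠ 0) (q : MvPolynomial (Fin 2) ℂ) :
    theta' t c (theta t c q) = q := by
  have h : (theta' t c).comp (theta t c) = AlgHom.id ℂ _ := by
    apply MvPolynomial.algHom_ext
    intro i
    fin_cases i
    · show theta' t c (theta t c (X 0)) = X 0
      rw [theta_X0, map_mul, theta'_C, theta'_X0, ← mul_assoc, ← C_mul, mul_inv_cancel₀ ht, C_1,
        one_mul]
    · show theta' t c (theta t c (X 1)) = X 1
      rw [theta_X1, map_add, map_mul, theta'_C, theta'_X0, theta'_X1, ← mul_assoc, ← C_mul]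
      ring
  exact DFunLike.congr_fun h q

theorem fibDegGE_congr {σ : Type} {X : Set (Pool.Agent.H286R4.PS σ)} {o y : σ → ℂ} {k : ℕ}
    (t c : ℂ) (ht : t ≠ 0) (h : Pool.Agent.H286R5.FibDegGE X o y k) :
    Pool.Agent.H286R5.FibDegGE X o (t • y + c • o) k := by
  obtain ⟨q, hq, hq0, hdiv⟩ := h
  refine ⟨theta t c q, ?_, ?_, ?_⟩
  · have hg : ∀ i, ((![C t * MvPolynomial.X 0, MvPolynomial.X 1 + C c * MvPolynomial.X 0] :
        Fin 2 → MvPolynomial (Fin 2) ℂ) i).IsHomogeneous 1 := by
      intro i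
      fin_cases i
      · show (C t * MvPolynomial.X 0 : MvPolynomial (Fin 2) ℂ).IsHomogeneous 1
        simpa using (isHomogeneous_C (Fin 2) t).mul (isHomogeneous_X ℂ (0 : Fin 2))
      · show (MvPolynomial.X 1 + C c * MvPolynomial.X 0 : MvPolynomial (Fin 2) ℂ).IsHomogeneous 1
        apply (isHomogeneous_X ℂ (1 : Fin 2)).add
        simpa using (isHomogeneous_C (Fin 2) c).mul (isHomogeneous_X ℂ (0 : Fin 2))
    have h1 := hq.aeval _ hg
    rw [one_mul] at h1
    exact h1
  · intro h0
    apply hq0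
    have h1 := left_inv t c ht q
    rw [h0, map_zero] at h1
    exact h1.symm
  · intro m f hf hv
    have h1 := hdiv m f hf hv
    have h2 : lineRes o (t • y + c • o) f = theta t c (lineRes o y f) := by
      unfold lineRes
      rw [← AlgHom.comp_apply, MvPolynomial.comp_aeval]
      congr 1
      congr 1
      funext i
      rw [map_add, map_mul, map_mul, theta_C, theta_C, theta_X0, theta_X1]
      simp only [Pi.add_apply, Pi.smul_apply, smul_eq_mul, C_add, C_mul]
      ring
    rw [h2]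
    exact map_dvd (theta t c) h1

end Pool.Agent.H553R3
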