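import Pool.Agent.H96R3.BC.Stmts
import Pool.Agent.H394R3.BC.Ker

set_option autoImplicit false

/-!
# BIGCOEF, tasks KER1 and KER2 (from the file of helper394)
-/

namespace Pool.Agent.H553R3.BC

open Pool.Agent.H96R3.BC

theorem KK_eq (k : ℕ) (hk : 1 ≤ k) (u v : ℝ) : KK k u v = Pool.Agent.H394R3.BC.Ker (k - 1) u v := rfl

theorem taskKer2 : TaskKer2 := by
  intro k hk u v hu hv
  have h0 : (0 : ℝ) ≤ v ^ (k - 1) := pow_nonneg hv _
  constructor
  · rw [KK_eq k hk]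
    refine (Pool.Agent.H394R3.BC.Ker_le_pow (k - 1) hu hv).trans ?_
    refine (div_le_self h0 (Pool.Agent.H394R3.BC.one_le_fac (k - 1))).trans ?_
    linarith
  · rw [KK_eq k hk, Pool.Agent.H394R3.BC.Ker_eq]
    have h1 := Pool.Agent.H394R3.BC.phi_sq_le (k - 1) (mul_nonneg hu hv)
    calc (v ^ (k - 1) * Pool.Agent.H394R3.BC.phi (k - 1) (u * v)) ^ 2 * u ^ (k - 1)
        = v ^ (k - 1) * ((u * v) ^ (k - 1) * Pool.Agent.H394R3.BC.phi (k - 1) (u * v) ^ 2) := by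
          rw [mul_pow u v]; ring
      _ ≤ v ^ (k - 1) * 1 := mul_le_mul_of_nonneg_left h1 h0
      _ = v ^ (k - 1) := mul_one _

theorem taskKer1 : TaskKer1 := by
  intro k hk
  obtain ⟨n, rfl⟩ : ∃ n, k = n + 1 := ⟨k - 1, by omega⟩
  refine ⟨fun u v => Pool.Agent.H394R3.BC.Ker_deriv n u v, Pool.Agent.H394R3.BC.Ker_cont n, ?_⟩
  intro u t hu ht
  refine ⟨Pool.Agent.H394R3.BC.Ker_laplace_int n hu ht, ?_⟩
  have h := Pool.Agent.H394R3.BC.Ker_laplace n hu ht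
  refine Eq.trans h ?_
  field_simp

end Pool.Agent.H553R3.BC
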