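import Pool.Agent.H777R4.DM.Stmts3

set_option autoImplicit false

namespace Pool.Agent.H553R3

open Pool.Agent.H777R4.DM

theorem co_sum_smul {n : ℕ} (s : Finset (Fin n)) (g : Fin n → ℚ) (F : Fin n → AY) (v : List ℕ) :
    co (∑ i ∈ s, g i • F i) v = ∑ i ∈ s, g i * co (F i) v := by
  unfold co
  rw [MonoidAlgebra.coeff_sum, Finsupp.finset_sum_apply]
  apply Finset.sum_congr rfl
  intro i _
  rw [MonoidAlgebra.coeff_smul, Finsupp.smul_apply, smul_eq_mul]

theorem co_ext (P : AY) (h : ∀ v, co P v = 0) : P = 0 := by
  apply MonoidAlgebra.ext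
  apply Finsupp.ext
  intro w
  have := h (FreeMonoid.toList w)
  unfold co at this
  rw [FreeMonoid.ofList_toList] at this
  rw [this]
  rfl

theorem li_update {n : ℕ} (M : Fin n → Fin n → ℚ) (hM : LinearIndependent ℚ M) (i0 : Fin n)
    (h : Fin n → ℚ) (h0 : h i0 ≠ 0) :
    LinearIndependent ℚ (Function.update M i0 (∑ j, h j • M j)) := by
  classical
  rw [Fintype.linearIndependent_iff] at hM ⊢
  intro a ha
  have e : ∑ i, a i • Function.update M i0 (∑ j, h j • M j) i =
      ∑ i, ((if i = i0 then 0 else a i) + a i0 * h i) • M i := by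
    have e1 : ∀ i, a i • Function.update M i0 (∑ j, h j • M j) i =
        (if i = i0 then 0 else a i) • M i + (if i = i0 then a i0 • ∑ j, h j • M j else 0) := by
      intro i
      by_cases hi : i = i0
      · subst hi
        rw [Function.update_self, if_pos rfl, if_pos rfl, zero_smul, zero_add]
      · rw [Function.update_of_ne hi, if_neg hi, if_neg hi, add_zero]
    rw [Finset.sum_congr rfl (fun i _ => e1 i), Finset.sum_add_distrib, Finset.sum_ite_eq' Finset.univ i0,
      if_pos (Finset.mem_univ _), Finset.smul_sum, ← Finset.sum_add_distrib]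
    apply Finset.sum_congr rfl
    intro i _
    rw [add_smul, smul_smul]
  rw [e] at ha
  have hz := hM _ ha
  have h1 := hz i0
  rw [if_pos rfl, zero_add] at h1
  have ha0 : a i0 = 0 := (mul_eq_zero.1 h1).resolve_right h0
  intro i
  by_cases hi : i = i0
  · rw [hi, ha0]
  · have := hz i
    rw [if_neg hi, ha0, zero_mul, add_zero] at this
    exact this

theorem taskAdMu : TaskAdMu := by
  classical
  intro n B μ L hμ hB
  let Pr : ℕ → Prop := fun s => ∃ (M : Fin n → Fin n → ℚ) (sl : Fin n → ℕ),
    LinearIndependent ℚ M ∧ (∀ i, ∀ l < sl i, L l (M i) = 0) ∧ ∑ i, sl i = s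
  have h0 : Pr 0 := by
    refine ⟨fun i => Pi.basisFun ℚ (Fin n) i, fun _ => 0, (Pi.basisFun ℚ (Fin n)).linearIndependent, ?_, ?_⟩
    · intro i l hl; exact absurd hl (Nat.not_lt_zero _)
    · simp
  have hbd : ∀ s, Pr s → s ≤ n * B := by
    rintro s ⟨M, sl, hM, hv, hs⟩
    rw [← hs]
    have h1 : ∀ i ∈ (Finset.univ : Finset (Fin n)), sl i ≤ B := by
      intro i _
      obtain ⟨l, hl, hne⟩ := hB (M i) (hM.ne_zero i)
      by_contra hcon
      exact hne (hv i l (by omega))
    have := Finset.sum_le_card_nsmul _ _ _ h1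
    simpa using this
  set s := Nat.findGreatest Pr (n * B) with hsdef
  have hs : Pr s := Nat.findGreatest_spec (Nat.zero_le _) h0
  have hmax : ∀ t, Pr t → t ≤ s := fun t ht => Nat.le_findGreatest (hbd t ht) ht
  obtain ⟨M, sl, hM, hv, hsum⟩ := hs
  refine ⟨M, sl, hM, hv, ?_⟩
  by_contra hdep
  rw [Fintype.linearIndependent_iff] at hdep
  push Not at hdep
  obtain ⟨g, hg, i0, hi0⟩ := hdep
  set h : Fin n → ℚ := fun i => if sl i = sl i0 then g i else 0 with hh
  have hh0 : h i0 ≠ 0 := by rw [hh]; simp only [if_true]; exact hi0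
  have hlead : L (sl i0) (∑ j, h j • M j) = 0 := by
    rw [map_sum]
    have e : ∑ j, L (sl i0) (h j • M j) = ∑ j, h j • L (sl j) (M j) := by
      apply Finset.sum_congr rfl
      intro j _
      rw [map_smul, hh]
      by_cases hj : sl j = sl i0
      · simp only [hj]
      · simp only [if_neg hj, zero_smul]
    rw [e]
    apply co_ext
    intro v
    rw [co_sum_smul]
    by_cases hvl : μ v = sl i0
    · have h1 : co (∑ i, g i • L (sl i) (M i)) v = 0 := by
        rw [hg]; unfold co; rfl
      rw [co_sum_smul] at h1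
      rw [← h1]
      apply Finset.sum_congr rfl
      intro j _
      rw [hh]
      by_cases hj : sl j = sl i0
      · simp only [if_pos hj]
      · simp only [if_neg hj, zero_mul]
        by_cases hc : co (L (sl j) (M j)) v = 0
        · rw [hc, mul_zero]
        · exact absurd ((hμ _ _ _ hc).symm.trans hvl) hj
    · apply Finset.sum_eq_zero
      intro j _
      rw [hh]
      by_cases hj : sl j = sl i0
      · simp only [if_pos hj]
        by_cases hc : co (L (sl j) (M j)) v = 0
        · rw [hc, mul_zero]
        · exact absurd ((hμ _ _ _ hc).trans hj) hvl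
      · simp only [if_neg hj, zero_mul]
  have hlow : ∀ l < sl i0, L l (∑ j, h j • M j) = 0 := by
    intro l hl
    rw [map_sum]
    apply Finset.sum_eq_zero
    intro j _
    rw [map_smul, hh]
    by_cases hj : sl j = sl i0
    · simp only [if_pos hj]
      rw [hv j l (by omega), smul_zero]
    · simp only [if_neg hj, zero_smul]
  have hnew : Pr (s + 1) := by
    refine ⟨Function.update M i0 (∑ j, h j • M j), Function.update sl i0 (sl i0 + 1),
      li_update M hM i0 h hh0, ?_, ?_⟩
    · intro i l hl
      by_cases hi : i = i0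
      · subst hi
        rw [Function.update_self] at hl ⊢
        rcases Nat.lt_succ_iff_lt_or_eq.1 hl with h1 | h1
        · exact hlow l h1
        · rw [h1]; exact hlead
      · rw [Function.update_of_ne hi] at hl ⊢
        exact hv i l hl
    · rw [Finset.sum_update_of_mem (Finset.mem_univ _), ← hsum,
        ← Finset.add_sum_erase Finset.univ sl (Finset.mem_univ i0), Finset.sdiff_singleton_eq_erase]
      ring
  have := hmax _ hnew
  omega

theorem taskAdapt : TaskAdapt := fun n B L h1 h2 => taskAdMu n B List.sum L h1 h2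

end Pool.Agent.H553R3
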