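import Mathlib

set_option autoImplicit false

namespace Pool.Agent.H553R3.PartialCube

open Finset

/-- rook adjacency on `Fin 36` seen as a 6 by 6 board -/
def rook (i j : Fin 36) : Prop := i ≠ j ∧ (i.val / 6 = j.val / 6 ∨ i.val % 6 = j.val % 6)

instance : DecidableRel rook := fun i j => by unfold rook; infer_instance

/-- the faces: at most two elements, pairwise rook adjacent -/
def face (s : Finset (Fin 36)) : Prop :=
  s.card ≤ 2 ∧ ∀ i ∈ s, ∀ j ∈ s, i ≠ j → rook i j

abbrev V : Type := {s : Finset (Fin 36) // face s}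

def emb (s : V) : Fin 36 → Bool := fun i => decide (i ∈ s.1)

theorem emb_inj : Function.Injective emb := by
  intro s t h
  apply Subtype.ext
  ext i
  have := congrFun h i
  simpa [emb] using this

theorem hd (s t : V) : hammingDist (emb s) (emb t) = (symmDiff s.1 t.1).card := by
  unfold hammingDist
  congr 1
  ext i
  simp only [mem_filter, mem_univ, true_and, emb, ne_eq, decide_eq_decide, mem_symmDiff]
  tauto

def G : SimpleGraph V where
  Adj s t := (symmDiff s.1 t.1).card = 1
  symm := ⟨by
    intro s t h
    rw [symmDiff_comm]; exact h⟩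
  loopless := ⟨by
    intro s h
    simp at h⟩

theorem face_mono {s t : Finset (Fin 36)} (hst : s ⊆ t) (ht : face t) : face s :=
  ⟨(card_le_card hst).trans ht.1, fun i hi j hj hij => ht.2 i (hst hi) j (hst hj) hij⟩

/-- one step closer -/
theorem step (s t : V) (hne : s ≠ t) :
    ∃ u : V, G.Adj s u ∧ hammingDist (emb u) (emb t) + 1 = hammingDist (emb s) (emb t) := by
  by_cases hst : s.1 ⊆ t.1
  · have hss : s.1 ⊂ t.1 := lt_of_le_of_ne hst (fun h => hne (Subtype.ext h))
    obtain ⟨x, hxt, hxs⟩ := exists_of_ssubset hss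
    have hsub : insert x s.1 ⊆ t.1 := insert_subset hxt hst
    refine ⟨⟨insert x s.1, face_mono hsub t.2⟩, ?_, ?_⟩
    · change (symmDiff s.1 (insert x s.1)).card = 1
      have : symmDiff s.1 (insert x s.1) = {x} := by
        ext i
        simp only [mem_symmDiff, mem_insert, mem_singleton]
        constructor
        · rintro (⟨h1, h2⟩ | ⟨h1, h2⟩)
          · exact absurd (Or.inr h1) h2
          · tauto
        · rintro rfl
          exact Or.inr ⟨Or.inl rfl, hxs⟩
      rw [this, card_singleton]
    · rw [hd, hd]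
      change (symmDiff (insert x s.1) t.1).card + 1 = _
      have : symmDiff (insert x s.1) t.1 = (symmDiff s.1 t.1).erase x := by
        ext i
        simp only [mem_symmDiff, mem_insert, mem_erase]
        constructor
        · rintro (⟨h1, h2⟩ | ⟨h1, h2⟩)
          · rcases h1 with rfl | h1
            · exact absurd hxt h2
            · exact absurd (hst h1) h2
          · push Not at h2
            exact ⟨h2.1, Or.inr ⟨h1, h2.2⟩⟩
        · rintro ⟨h0, h1⟩
          tauto
      rw [this, card_erase_add_one]
      simp only [mem_symmDiff]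
      exact Or.inr ⟨hxt, hxs⟩
  · obtain ⟨x, hxs, hxt⟩ := not_subset.1 hst
    refine ⟨⟨s.1.erase x, face_mono (erase_subset _ _) s.2⟩, ?_, ?_⟩
    · change (symmDiff s.1 (s.1.erase x)).card = 1
      have : symmDiff s.1 (s.1.erase x) = {x} := by
        ext i
        simp only [mem_symmDiff, mem_erase, mem_singleton]
        constructor
        · rintro (⟨h1, h2⟩ | ⟨h1, h2⟩)
          · tauto
          · exact absurd h1.2 h2
        · rintro rfl
          exact Or.inl ⟨hxs, fun h => h.1 rfl⟩
      rw [this, card_singleton]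
    · rw [hd, hd]
      change (symmDiff (s.1.erase x) t.1).card + 1 = _
      have : symmDiff (s.1.erase x) t.1 = (symmDiff s.1 t.1).erase x := by
        ext i
        simp only [mem_symmDiff, mem_erase]
        constructor
        · rintro (⟨h1, h2⟩ | ⟨h1, h2⟩)
          · exact ⟨h1.1, Or.inl ⟨h1.2, h2⟩⟩
          · refine ⟨?_, ?_⟩
            · rintro rfl; exact hxt h1
            · right
              refine ⟨h1, fun h3 => h2 ⟨?_, h3⟩⟩
              rintro rfl; exact hxt h1
        · rintro ⟨h0, h1⟩
          tauto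
      rw [this, card_erase_add_one]
      simp only [mem_symmDiff]
      exact Or.inl ⟨hxs, hxt⟩

theorem exists_walk (n : ℕ) : ∀ s t : V, hammingDist (emb s) (emb t) = n →
    ∃ p : G.Walk s t, p.length = n := by
  induction n with
  | zero =>
    intro s t h
    have : s = t := emb_inj (hammingDist_eq_zero.1 h)
    subst this
    exact ⟨SimpleGraph.Walk.nil, rfl⟩
  | succ n ih =>
    intro s t h
    have hne : s ≠ t := by
      rintro rfl
      simp at h
    obtain ⟨u, hu, h2⟩ := step s t hne
    obtain ⟨p, hp⟩ := ih u t (by omega)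
    exact ⟨SimpleGraph.Walk.cons hu p, by simp [hp]⟩

theorem walk_le (s t : V) (p : G.Walk s t) : hammingDist (emb s) (emb t) ≤ p.length := by
  induction p with
  | nil => simp
  | @cons a b d h p ih =>
    have h1 : hammingDist (emb a) (emb b) = 1 := by rw [hd]; exact h
    have h2 := hammingDist_triangle (emb a) (emb b) (emb d)
    simp only [SimpleGraph.Walk.length_cons]
    omega

theorem isometric (s t : V) : hammingDist (emb s) (emb t) = G.dist s t := by
  apply le_antisymm
  · obtain ⟨p, _⟩ := exists_walk _ s t rfl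
    obtain ⟨q, hq⟩ := (SimpleGraph.Walk.reachable p).exists_walk_length_eq_dist
    rw [← hq]
    exact walk_le s t q
  · obtain ⟨p, hp⟩ := exists_walk _ s t rfl
    rw [← hp]
    exact SimpleGraph.dist_le p

/-- colours at a vertex spread over at most the number of neighbours -/
theorem diff_le {W : Type} (H : SimpleGraph W) (c : Sym2 W → ℕ)
    (hint : ∀ (u v w : W) (k : ℕ), H.Adj u v → H.Adj u w →
            c s(u, v) ≤ k → k ≤ c s(u, w) → ∃ x : W, H.Adj u x ∧ c s(u, x) = k)
    (u v w : W) (huv : H.Adj u v) (huw : H.Adj u w) (S : Finset W)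
    (hS : ∀ x, H.Adj u x → x ∈ S) : c s(u, w) + 1 ≤ c s(u, v) + S.card := by
  classical
  rcases le_or_gt (c s(u, v)) (c s(u, w)) with h | h
  · have h1 : Icc (c s(u, v)) (c s(u, w)) ⊆ S.image (fun x => c s(u, x)) := by
      intro k hk
      rw [mem_Icc] at hk
      obtain ⟨x, hx, hxk⟩ := hint u v w k huv huw hk.1 hk.2
      exact mem_image.2 ⟨x, hS x hx, hxk⟩
    have h2 := (card_le_card h1).trans card_image_le
    rw [Nat.card_Icc] at h2
    omega
  · have : 0 < S.card := card_pos.2 ⟨v, hS v huv⟩
    omega

theorem face_empty : face ∅ := ⟨by simp, by simp⟩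
theorem face_single (i : Fin 36) : face {i} := ⟨by simp, by
  intro a ha b hb hab
  rw [mem_singleton] at ha hb
  exact absurd (ha.trans hb.symm) hab⟩
theorem face_pair (i j : Fin 36) (h : rook i j) : face {i, j} := ⟨card_le_two, by
  intro a ha b hb hab
  rw [mem_insert, mem_singleton] at ha hb
  rcases ha with rfl | rfl <;> rcases hb with rfl | rfl
  · exact absurd rfl hab
  · exact h
  · exact ⟨h.1.symm, h.2.imp Eq.symm Eq.symm⟩
  · exact absurd rfl hab⟩

def v0 : V := ⟨∅, face_empty⟩
def v1 (i : Fin 36) : V := ⟨{i}, face_single i⟩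
def v2 (i j : Fin 36) (h : rook i j) : V := ⟨{i, j}, face_pair i j h⟩

theorem adj01 (i : Fin 36) : G.Adj v0 (v1 i) := by
  change (symmDiff (∅ : Finset (Fin 36)) {i}).card = 1
  rw [← bot_eq_empty, bot_symmDiff, card_singleton]

theorem adj12 (i j : Fin 36) (h : rook i j) : G.Adj (v1 i) (v2 i j h) := by
  change (symmDiff ({i} : Finset (Fin 36)) {i, j}).card = 1
  have : symmDiff ({i} : Finset (Fin 36)) {i, j} = {j} := by
    ext a
    simp only [mem_symmDiff, mem_insert, mem_singleton]
    have := h.1
    constructor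
    · tauto
    · rintro rfl
      right
      exact ⟨Or.inr rfl, fun h => this h.symm⟩
  rw [this, card_singleton]

theorem adj12' (i j : Fin 36) (h : rook i j) : G.Adj (v1 j) (v2 i j h) := by
  change (symmDiff ({j} : Finset (Fin 36)) {i, j}).card = 1
  have : symmDiff ({j} : Finset (Fin 36)) {i, j} = {i} := by
    ext a
    simp only [mem_symmDiff, mem_insert, mem_singleton]
    have := h.1
    constructor
    · tauto
    · rintro rfl
      right
      exact ⟨Or.inl rfl, fun h => this h⟩
  rw [this, card_singleton]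

theorem rook_card : ∀ i : Fin 36, (univ.filter (fun j => rook i j)).card = 10 := by
  decide +kernel

noncomputable def nb (u : V) : Finset V := by
  classical exact univ.filter (fun x => G.Adj u x)

theorem mem_nb (u x : V) (h : G.Adj u x) : x ∈ nb u := by
  unfold nb; simp [h]

theorem symmDiff_card_one {s t : Finset (Fin 36)} (h : (symmDiff s t).card = 1) :
    ∃ x, (x ∉ s ∧ t = insert x s) ∨ (x ∈ s ∧ t = s.erase x) := by
  obtain ⟨x, hx⟩ := card_eq_one.1 h
  refine ⟨x, ?_⟩
  have key : t = symmDiff s {x} := by
    rw [← hx, symmDiff_symmDiff_cancel_left]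
  by_cases hxs : x ∈ s
  · right
    refine ⟨hxs, ?_⟩
    rw [key]
    ext a
    simp only [mem_symmDiff, mem_singleton, mem_erase]
    constructor
    · rintro (⟨h1, h2⟩ | ⟨h1, h2⟩)
      · exact ⟨h2, h1⟩
      · subst h1; exact absurd hxs h2
    · rintro ⟨h1, h2⟩
      exact Or.inl ⟨h2, h1⟩
  · left
    refine ⟨hxs, ?_⟩
    rw [key]
    ext a
    simp only [mem_symmDiff, mem_singleton, mem_insert]
    constructor
    · rintro (⟨h1, h2⟩ | ⟨h1, h2⟩)
      · exact Or.inr h1
      · exact Or.inl h1
    · rintro (rfl | h1)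
      · exact Or.inr ⟨rfl, hxs⟩
      · left
        refine ⟨h1, ?_⟩
        rintro rfl; exact hxs h1

theorem nb1_card (i : Fin 36) : (nb (v1 i)).card ≤ 11 := by
  classical
  have h : (nb (v1 i)).card ≤
      (insert (∅ : Finset (Fin 36)) ((univ.filter (fun j => rook i j)).image
        (fun j => ({i, j} : Finset (Fin 36))))).card := by
    apply card_le_card_of_injOn (fun x : V => x.1)
    · intro x hx
      unfold nb at hx
      simp only [coe_filter, mem_univ, true_and, Set.mem_ofPred_eq] at hx
      obtain ⟨y, ⟨hy, hxy⟩ | ⟨hy, hxy⟩⟩ := symmDiff_card_one hx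
      · have hy' : y ≠ i := by
          intro h; apply hy; rw [h]; exact mem_singleton_self i
        simp only [coe_insert, coe_image, Set.mem_insert_iff]
        right
        refine ⟨y, ?_, ?_⟩
        · simp only [coe_filter, mem_univ, true_and, Set.mem_ofPred_eq]
          apply x.2.2 i _ y _ hy'.symm
          · rw [hxy]; simp [v1]
          · rw [hxy]; simp
        · rw [hxy]; exact pair_comm i y
      · simp only [coe_insert, Set.mem_insert_iff]
        left
        have : y = i := by simpa [v1] using hy
        rw [hxy, this]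
        simp [v1]
    · intro x _ y _ h
      exact Subtype.ext h
  refine h.trans ((card_insert_le _ _).trans ?_)
  have := (card_image_le (s := univ.filter (fun j => rook i j))
    (f := fun j => ({i, j} : Finset (Fin 36))))
  rw [rook_card i] at this
  omega

theorem nb2_card (i j : Fin 36) (hij : rook i j) : (nb (v2 i j hij)).card ≤ 2 := by
  classical
  have h : (nb (v2 i j hij)).card ≤ ({({j} : Finset (Fin 36)), {i}} : Finset (Finset (Fin 36))).card := by
    apply card_le_card_of_injOn (fun x : V => x.1)
    · intro x hx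
      unfold nb at hx
      simp only [coe_filter, mem_univ, true_and, Set.mem_ofPred_eq] at hx
      obtain ⟨y, ⟨hy, hxy⟩ | ⟨hy, hxy⟩⟩ := symmDiff_card_one hx
      · exfalso
        have h3 := x.2.1
        rw [hxy, card_insert_of_notMem hy] at h3
        have h4 : (v2 i j hij).1.card = 2 := card_pair hij.1
        omega
      · have hy2 : y = i ∨ y = j := by simpa [v2] using hy
        simp only [coe_insert, coe_singleton, Set.mem_insert_iff, Set.mem_singleton_iff]
        rcases hy2 with rfl | rfl
        · left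
          rw [hxy]
          change ({y, j} : Finset (Fin 36)).erase y = {j}
          ext a
          simp only [mem_erase, mem_insert, mem_singleton]
          have := hij.1
          constructor
          · tauto
          · rintro rfl
            exact ⟨fun h => this h.symm, Or.inr rfl⟩
        · right
          rw [hxy]
          change ({i, y} : Finset (Fin 36)).erase y = {i}
          ext a
          simp only [mem_erase, mem_insert, mem_singleton]
          have := hij.1
          constructor
          · tauto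
          · rintro rfl
            exact ⟨this, Or.inl rfl⟩
    · intro x _ y _ h
      exact Subtype.ext h
  exact h.trans card_le_two

theorem diam2 : ∀ i j : Fin 36, i ≠ j → ¬ rook i j → ∃ k, rook i k ∧ rook k j := by
  decide +kernel

theorem spread (c : Sym2 V → ℕ)
    (hint : ∀ (u v w : V) (k : ℕ), G.Adj u v → G.Adj u w →
            c s(u, v) ≤ k → k ≤ c s(u, w) → ∃ x : V, G.Adj u x ∧ c s(u, x) = k)
    (i j : Fin 36) (hij : i ≠ j) : c s(v0, v1 j) ≤ c s(v0, v1 i) + 32 := by
  have hd1 : ∀ (a : Fin 36) (v w : V), G.Adj (v1 a) v → G.Adj (v1 a) w →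
      c s(v1 a, w) ≤ c s(v1 a, v) + 10 := by
    intro a v w h1 h2
    have h3 := diff_le G c hint (v1 a) v w h1 h2 (nb (v1 a)) (mem_nb _)
    have := nb1_card a
    omega
  have hd2 : ∀ (a b : Fin 36) (hab : rook a b) (v w : V), G.Adj (v2 a b hab) v →
      G.Adj (v2 a b hab) w → c s(v2 a b hab, w) ≤ c s(v2 a b hab, v) + 1 := by
    intro a b hab v w h1 h2
    have h3 := diff_le G c hint (v2 a b hab) v w h1 h2 (nb _) (mem_nb _)
    have := nb2_card a b hab
    omega
  by_cases hr : rook i j
  · have e1 := hd1 i v0 (v2 i j hr) (adj01 i).symm (adj12 i j hr)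
    have e2 := hd2 i j hr (v1 i) (v1 j) (adj12 i j hr).symm (adj12' i j hr).symm
    have e3 := hd1 j (v2 i j hr) v0 (adj12' i j hr) (adj01 j).symm
    rw [Sym2.eq_swap (a := v1 i) (b := v0)] at e1
    rw [Sym2.eq_swap (a := v2 i j hr) (b := v1 j), Sym2.eq_swap (a := v2 i j hr) (b := v1 i)] at e2
    rw [Sym2.eq_swap (a := v1 j) (b := v0)] at e3
    omega
  · obtain ⟨k, h1, h2⟩ := diam2 i j hij hr
    have e1 := hd1 i v0 (v2 i k h1) (adj01 i).symm (adj12 i k h1)
    have e2 := hd2 i k h1 (v1 i) (v1 k) (adj12 i k h1).symm (adj12' i k h1).symm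
    have e3 := hd1 k (v2 i k h1) (v2 k j h2) (adj12' i k h1) (adj12 k j h2)
    have e4 := hd2 k j h2 (v1 k) (v1 j) (adj12 k j h2).symm (adj12' k j h2).symm
    have e5 := hd1 j (v2 k j h2) v0 (adj12' k j h2) (adj01 j).symm
    rw [Sym2.eq_swap (a := v1 i) (b := v0)] at e1
    rw [Sym2.eq_swap (a := v2 i k h1) (b := v1 k), Sym2.eq_swap (a := v2 i k h1) (b := v1 i)] at e2
    rw [Sym2.eq_swap (a := v2 k j h2) (b := v1 j), Sym2.eq_swap (a := v2 k j h2) (b := v1 k)] at e4
    rw [Sym2.eq_swap (a := v1 j) (b := v0)] at e5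
    omega

theorem v1_inj {i j : Fin 36} (h : v1 i = v1 j) : i = j := by
  have := congrArg Subtype.val h
  simpa [v1] using this

theorem no_coloring (c : Sym2 V → ℕ)
    (hprop : ∀ u v w : V, G.Adj u v → G.Adj u w → v ≠ w → c s(u, v) ≠ c s(u, w))
    (hint : ∀ (u v w : V) (k : ℕ), G.Adj u v → G.Adj u w →
            c s(u, v) ≤ k → k ≤ c s(u, w) → ∃ x : V, G.Adj u x ∧ c s(u, x) = k) : False := by
  have hinj : Function.Injective (fun i : Fin 36 => c s(v0, v1 i)) := by
    intro i j h
    by_contra hne
    exact hprop v0 (v1 i) (v1 j) (adj01 i) (adj01 j) (fun h2 => hne (v1_inj h2)) h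
  obtain ⟨i0, -, hi0⟩ := exists_min_image (univ : Finset (Fin 36)) (fun i => c s(v0, v1 i))
    ⟨0, mem_univ _⟩
  have hsub : (univ : Finset (Fin 36)).image (fun i => c s(v0, v1 i)) ⊆
      Icc (c s(v0, v1 i0)) (c s(v0, v1 i0) + 32) := by
    intro x hx
    obtain ⟨j, -, rfl⟩ := mem_image.1 hx
    rw [mem_Icc]
    refine ⟨hi0 j (mem_univ _), ?_⟩
    by_cases hij : i0 = j
    · rw [hij]; omega
    · exact spread c hint i0 j hij
  have h1 := card_le_card hsub
  rw [card_image_of_injective _ hinj, Nat.card_Icc, card_univ, Fintype.card_fin] at h1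
  omega

end Pool.Agent.H553R3.PartialCube
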