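import Pool.Agent.H972ST.Stmts

set_option autoImplicit false

namespace Pool.Agent.H553R3.STV

open Finset Pool.Agent.H972ST

/-- the index set -/
abbrev U := (Bool × Bool × Bool) × (Fin 6 → ℕ)

def sg (b : Bool) (a : ℤ) : ℤ := if b = true then a else -a

theorem sg_abs (b : Bool) (a : ℤ) (ha : 0 < a) : |sg b a| = a := by
  unfold sg
  cases b
  · simp only [Bool.false_eq_true, if_false, abs_neg, abs_of_pos ha]
  · simp only [if_true, abs_of_pos ha]

theorem sg_par (b : Bool) (a : ℤ) : (sg b a - a) % 2 = 0 := by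
  unfold sg
  cases b
  · simp only [Bool.false_eq_true, if_false]; omega
  · simp only [if_true]; omega

theorem sg_inj (b b' : Bool) (a a' : ℤ) (ha : 0 < a) (ha' : 0 < a') (h : sg b a = sg b' a') :
    b = b' ∧ a = a' := by
  unfold sg at h
  cases b <;> cases b' <;> simp only [Bool.false_eq_true, if_false, if_true] at h <;>
    first | exact ⟨rfl, by omega⟩ | (exfalso; omega)

theorem sg_dec (n : ℤ) : sg (decide (0 < n)) |n| = n := by
  unfold sg
  by_cases h : 0 < n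
  · simp only [h, decide_true, if_true, abs_of_pos h]
  · simp only [h, decide_false, Bool.false_eq_true, if_false]
    rw [abs_of_nonpos (by omega)]
    ring

theorem abs_par (n : ℤ) : (|n| - n) % 2 = 0 := by
  rcases abs_cases n with h | h
  · rw [h.1]; omega
  · rw [h.1]; omega

def iM (m e : ℕ) (p : U) : T6 :=
  ((sg p.1.1 ((m:ℤ) - (p.2 0 + p.2 1 + e)), (p.2 0 : ℤ) - p.2 1),
   (sg p.1.2.1 ((m:ℤ) - (p.2 2 + p.2 3 + e)), (p.2 2 : ℤ) - p.2 3),
   (sg p.1.2.2 ((m:ℤ) - (p.2 4 + p.2 5 + e)), (p.2 4 : ℤ) - p.2 5))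

open Classical in
noncomputable def VE (m e : ℕ) : Finset T6 :=
  (Vset m).filter (fun z => (z.1.2 + m - |z.1.1|) % 2 = (e : ℤ))

noncomputable def ZE (m e : ℕ) : Finset (Fin 6 → ℕ) :=
  ((range (m - 1)).filter (fun k => k % 2 = m % 2 ∧ 3 * e ≤ k)).biUnion
    (fun k => piAntidiag (univ : Finset (Fin 6)) (k - 3 * e))

theorem mem_ZE (m e : ℕ) (u : Fin 6 → ℕ) : u ∈ ZE m e ↔
    (u 0 + u 1 + u 2 + u 3 + u 4 + u 5 + 3 * e < m - 1 ∧
      (u 0 + u 1 + u 2 + u 3 + u 4 + u 5 + 3 * e) % 2 = m % 2) := by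
  unfold ZE
  rw [mem_biUnion]
  constructor
  · rintro ⟨k, hk, hu⟩
    rw [mem_filter, mem_range] at hk
    rw [mem_piAntidiag, Fin.sum_univ_six] at hu
    omega
  · rintro ⟨h1, h2⟩
    refine ⟨u 0 + u 1 + u 2 + u 3 + u 4 + u 5 + 3 * e, ?_, ?_⟩
    · rw [mem_filter, mem_range]
      exact ⟨h1, h2, by omega⟩
    · rw [mem_piAntidiag, Fin.sum_univ_six]
      exact ⟨by omega, fun i _ => mem_univ i⟩

theorem card_pi (k : ℕ) : (piAntidiag (univ : Finset (Fin 6)) k).card = (k + 5).choose 5 := by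
  classical
  rw [← map_sym_eq_piAntidiag, card_map, Finset.sym_univ, Finset.card_univ, Sym.card_sym_eq_choose,
    Fintype.card_fin]
  rw [show 6 + k - 1 = k + 5 by omega]
  rw [← Nat.choose_symm_of_eq_add (show k + 5 = 5 + k by omega)]

theorem card_ZE (m e : ℕ) : (ZE m e).card =
    ∑ k ∈ (range (m - 1)).filter (fun k => k % 2 = m % 2 ∧ 3 * e ≤ k), (k - 3 * e + 5).choose 5 := by
  unfold ZE
  rw [card_biUnion]
  · apply sum_congr rfl
    intro k _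
    exact card_pi _
  · intro a ha b hb hab
    show Disjoint (piAntidiag (univ : Finset (Fin 6)) (a - 3 * e)) (piAntidiag univ (b - 3 * e))
    rw [disjoint_left]
    intro u hu hv
    rw [mem_piAntidiag] at hu hv
    rw [mem_coe, mem_filter] at ha hb
    have := hu.1.symm.trans hv.1
    omega

theorem mem_VE (m e : ℕ) (z : T6) : z ∈ VE m e ↔
    ((z.1.2 + m - |z.1.1|) % 2 = (e : ℤ) ∧ |z.1.1| + |z.1.2| ≤ m ∧ |z.2.1.1| + |z.2.1.2| ≤ m ∧
      |z.2.2.1| + |z.2.2.2| ≤ m ∧ (z.1.1 + z.2.1.1 + z.2.2.1) % 2 = 0 ∧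
      (z.1.1 + z.2.2.2 + z.2.1.2) % 2 = 0 ∧
      (z.1.2 + z.2.1.1 + z.2.2.2) % 2 = 0 ∧ (z.1.2 + z.2.2.1 + z.2.1.2) % 2 = 0 ∧
      2 * (m : ℤ) < |z.1.1| + |z.2.1.1| + |z.2.2.1|) := by
  classical
  unfold VE Vset Box prs par
  simp only [mem_filter, mem_product, mem_Icc]
  constructor
  · rintro ⟨⟨_, h1, h2, h3⟩, h4⟩
    exact ⟨h4, h1.1, h1.2.1, h1.2.2, h2.1, h2.2.1, h2.2.2.1, h2.2.2.2, h3⟩
  · rintro ⟨h0, h1, h2, h3, h4, h5, h6, h7, h8⟩
    have key : ∀ a b : ℤ, |a| + |b| ≤ m → ((-(m:ℤ) ≤ a ∧ a ≤ m) ∧ (-(m:ℤ) ≤ b ∧ b ≤ m)) := by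
      intro a b h
      have ha := abs_nonneg a
      have hb := abs_nonneg b
      exact ⟨abs_le.1 (by linarith), abs_le.1 (by linarith)⟩
    exact ⟨⟨⟨key _ _ h1, key _ _ h2, key _ _ h3⟩, ⟨h1, h2, h3⟩, ⟨h4, h5, h6, h7⟩, h8⟩, h0⟩

theorem maps (m e : ℕ) (he : e < 2) (b1 b2 b3 : Bool) (u : Fin 6 → ℕ)
    (hp1 : u 0 + u 1 + u 2 + u 3 + u 4 + u 5 + 3 * e < m - 1)
    (hp2 : (u 0 + u 1 + u 2 + u 3 + u 4 + u 5 + 3 * e) % 2 = m % 2) :
    iM m e ((b1, b2, b3), u) ∈ VE m e := by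
  rw [mem_VE]
  simp only [iM]
  have a1 : 0 < (m:ℤ) - (u 0 + u 1 + e) := by omega
  have a2 : 0 < (m:ℤ) - (u 2 + u 3 + e) := by omega
  have a3 : 0 < (m:ℤ) - (u 4 + u 5 + e) := by omega
  have q1 := sg_par b1 ((m:ℤ) - (u 0 + u 1 + e))
  have q2 := sg_par b2 ((m:ℤ) - (u 2 + u 3 + e))
  have q3 := sg_par b3 ((m:ℤ) - (u 4 + u 5 + e))
  have r : ∀ x y : ℕ, |(x:ℤ) - y| ≤ x + y := fun x y => abs_le.2 ⟨by omega, by omega⟩
  have r1 := r (u 0) (u 1)
  have r2 := r (u 2) (u 3)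
  have r3 := r (u 4) (u 5)
  rw [sg_abs _ _ a1, sg_abs _ _ a2, sg_abs _ _ a3]
  generalize sg b1 ((m:ℤ) - (u 0 + u 1 + e)) = s1 at *
  generalize sg b2 ((m:ℤ) - (u 2 + u 3 + e)) = s2 at *
  generalize sg b3 ((m:ℤ) - (u 4 + u 5 + e)) = s3 at *
  generalize |(u 0 : ℤ) - u 1| = c1 at *
  generalize |(u 2 : ℤ) - u 3| = c2 at *
  generalize |(u 4 : ℤ) - u 5| = c3 at *
  refine ⟨by omega, by omega, by omega, by omega, by omega, by omega, by omega, by omega, by omega⟩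

theorem inj (m e : ℕ) (p q : U) (hp : p.2 ∈ ZE m e) (hq : q.2 ∈ ZE m e)
    (h : iM m e p = iM m e q) : p = q := by
  obtain ⟨⟨b1, b2, b3⟩, u⟩ := p
  obtain ⟨⟨b1', b2', b3'⟩, v⟩ := q
  rw [mem_ZE] at hp hq
  simp only at hp hq
  simp only [iM, Prod.mk.injEq] at h
  obtain ⟨⟨h1, h2⟩, ⟨h3, h4⟩, ⟨h5, h6⟩⟩ := h
  obtain ⟨e1, f1⟩ := sg_inj _ _ _ _ (by omega) (by omega) h1
  obtain ⟨e2, f2⟩ := sg_inj _ _ _ _ (by omega) (by omega) h3
  obtain ⟨e3, f3⟩ := sg_inj _ _ _ _ (by omega) (by omega) h5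
  have g0 : u 0 = v 0 := by omega
  have g1 : u 1 = v 1 := by omega
  have g2 : u 2 = v 2 := by omega
  have g3 : u 3 = v 3 := by omega
  have g4 : u 4 = v 4 := by omega
  have g5 : u 5 = v 5 := by omega
  have huv : u = v := by
    funext t
    fin_cases t
    · exact g0
    · exact g1
    · exact g2
    · exact g3
    · exact g4
    · exact g5
  rw [e1, e2, e3, huv]

/-- splitting `c = x + y + e`, `n = x - y` -/
theorem two (c n : ℤ) (e : ℕ) (he : e < 2) (h1 : |n| ≤ c) (h2 : (n + c) % 2 = e) :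
    ∃ x y : ℕ, c = x + y + e ∧ n = (x : ℤ) - y := by
  rw [abs_le] at h1
  refine ⟨((c - e + n) / 2).toNat, ((c - e - n) / 2).toNat, ?_, ?_⟩ <;> omega

theorem surj (m e : ℕ) (he : e < 2) (z : T6) (hz : z ∈ VE m e) :
    ∃ p : U, p.2 ∈ ZE m e ∧ iM m e p = z := by
  obtain ⟨⟨n1, n2⟩, ⟨y1, y4⟩, ⟨y2, y3⟩⟩ := z
  rw [mem_VE] at hz
  simp only at hz
  obtain ⟨h0, h1, h2, h3, h4, h5, h6, h7, h8⟩ := hz
  have p1 := abs_par n1
  have p2 := abs_par y1
  have p3 := abs_par y2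
  have d1 := sg_dec n1
  have d2 := sg_dec y1
  have d3 := sg_dec y2
  generalize hA1 : |n1| = A1 at *
  generalize hA2 : |y1| = A2 at *
  generalize hA3 : |y2| = A3 at *
  obtain ⟨x0, x1, k1, k2⟩ := two ((m:ℤ) - A1) n2 e he (by linarith) (by omega)
  obtain ⟨x2, x3, k3, k4⟩ := two ((m:ℤ) - A2) y4 e he (by linarith) (by omega)
  obtain ⟨x4, x5, k5, k6⟩ := two ((m:ℤ) - A3) y3 e he (by linarith) (by omega)
  refine ⟨((decide (0 < n1), decide (0 < y1), decide (0 < y2)), ![x0, x1, x2, x3, x4, x5]), ?_, ?_⟩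
  · rw [mem_ZE]
    show x0 + x1 + x2 + x3 + x4 + x5 + 3 * e < m - 1 ∧ (x0 + x1 + x2 + x3 + x4 + x5 + 3 * e) % 2 = m % 2
    omega
  · show ((sg (decide (0 < n1)) ((m:ℤ) - (x0 + x1 + e)), (x0 : ℤ) - x1),
      (sg (decide (0 < y1)) ((m:ℤ) - (x2 + x3 + e)), (x2 : ℤ) - x3),
      (sg (decide (0 < y2)) ((m:ℤ) - (x4 + x5 + e)), (x4 : ℤ) - x5)) = ((n1, n2), (y1, y4), (y2, y3))
    rw [← k2, ← k4, ← k6, ← k1, ← k3, ← k5, sub_sub_cancel, sub_sub_cancel, sub_sub_cancel, d1, d2, d3]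

theorem card_VE (m e : ℕ) (he : e < 2) : (VE m e).card = 8 * (ZE m e).card := by
  classical
  have h8 : ((univ : Finset (Bool × Bool × Bool)) ×ˢ ZE m e).card = 8 * (ZE m e).card := by
    rw [card_product]
    rfl
  rw [← h8]
  symm
  refine Finset.card_bij (fun p _ => iM m e p) ?_ ?_ ?_
  · rintro ⟨⟨b1, b2, b3⟩, u⟩ hp
    rw [mem_product, mem_ZE] at hp
    exact maps m e he b1 b2 b3 u hp.2.1 hp.2.2
  · intro p hp q hq h
    exact inj m e p q (mem_product.1 hp).2 (mem_product.1 hq).2 h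
  · intro z hz
    obtain ⟨p, hp, h⟩ := surj m e he z hz
    exact ⟨p, mem_product.2 ⟨mem_univ _, hp⟩, h⟩

theorem tV : TV := by
  classical
  intro m
  have hsplit : (Vset m).card = (VE m 0).card + (VE m 1).card := by
    unfold VE
    rw [← Finset.card_union_of_disjoint]
    · congr 1
      ext z
      rw [mem_union, mem_filter, mem_filter]
      constructor
      · intro h
        have : (z.1.2 + m - |z.1.1|) % 2 = 0 ∨ (z.1.2 + m - |z.1.1|) % 2 = 1 :=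
          Int.emod_two_eq_zero_or_one _
        rcases this with h1 | h1
        · left; exact ⟨h, by rw [h1]; rfl⟩
        · right; exact ⟨h, by rw [h1]; rfl⟩
      · rintro (h | h) <;> exact h.1
    · rw [disjoint_left]
      intro z h1 h2
      rw [mem_filter] at h1 h2
      have := h1.2.symm.trans h2.2
      norm_num at this
  rw [hsplit, card_VE m 0 (by norm_num), card_VE m 1 (by norm_num), card_ZE, card_ZE, ← mul_add]
  congr 1
  rw [Finset.sum_add_distrib]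
  congr 1
  · apply sum_congr
    · ext k; simp
    · intro k _; simp
  · have e1 : (range (m - 1)).filter (fun k => k % 2 = m % 2 ∧ 3 * 1 ≤ k) =
        ((range (m - 1)).filter (fun k => k % 2 = m % 2)).filter (fun k => 3 ≤ k) := by
      rw [filter_filter]
    rw [e1, sum_filter]
    apply sum_congr rfl
    intro k _
    split_ifs with h
    · congr 1
      omega
    · rw [Nat.choose_eq_zero_of_lt (by omega)]

end Pool.Agent.H553R3.STV
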